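import Mathlib
import Pool.Agent.Run7.h200.GR.Quot

/-!
# Group actions and the sign conjecture

Let `W` be a Weil cohomology theory (crystalline cohomology over a perfect field `k`), and let a finite
group `G` act on a smooth proper variety `X`. Let `D` be a set of degrees. For a subgroup
`H` of `G` let `J H` be the assertion that an algebraic cycle on `X × X` with rational coefficients
induces `∑_{h ∈ H} h` on the groups `H^j(X)`, `j ∈ D`, and zero on `H^j(X)`, `j ∉ D`: the
projector `π^D` is algebraic for the motive `(X, e_H)`, the image of the mean `e_H` of the graphs of the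
elements of `H`. For the even numbers `D` this is the sign conjecture `C⁺` for the
motive `(X, e_H)`, or for `X/H`. For `D = {i}` it is the algebraicity of the Künneth
projector of degree `i`.

(1) `J 1` is the sign conjecture for `X`, and `J H` is inherited by bigger groups.

(2) `J H` follows from `C⁺(Y)` if `f : X → Y` is a morphism to a smooth proper variety `Y` of the
same dimension with `f^* f_* = ∑_{h ∈ H} h` (for example the quotient map, if `X/H` is smooth).

(3) `Sieve`: let `K` be a commutative group of automorphisms, and `R_j` subgroups with
`J R_j`. Then `C⁺(X)` holds if and only if `J D` holds for the `D ⊆ K` for which `K/D` is cyclic and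
which contain no `R_j`.

(4) `C⁺(X)` is equivalent to the assertions for all the groups of a dominating family; for the
`D ⊆ K` with `K/D` cyclic, `K` commutative; for the components of a partition of
a subgroup; for `⟨c⟩` and `[G, c]`, `c` an involution; for `⟨c⟩` if
`c` is contained in a nonabelian simple subgroup; for `A_k` if `A_n` acts and `(k - 1) ^ 2 < n`; for
`A_k` and the group of the even permutations preserving `k - 1` classes, `2 ≤ k ≤ n` (`Criteria`).

(5) If `C⁺(X)` is wrong, but `J P` holds for the subgroups `P` of prime order, then `G` acts freely on
the nonzero vectors of an irreducible rational representation on which all elements `∑ x_g g` for which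
`π⁺ ∑ x_g g` is algebraic act as zero, the commutative subgroups and the subgroups of order `p q` of `G`
are cyclic, and `G` has at most one involution.
-/

set_option autoImplicit false

open CategoryTheory Pool.Agent.H914 Pool.Agent.H914.VarClass Pool.Agent.H914.VarClass.Obj
  Pool.Agent.H447 Run7.h200.Van Run7.h200.GR

universe u v

namespace Pool.Agent.Results.MP_fd35e1_ag.GroupActions

/-- **Group actions and the sign conjecture.** `SumIn (CutCyc W D a) H` is the assertion `J H`. -/
theorem result {k : Type u} [Field k] {𝒱 : VarClass k} {ops : CycleOps 𝒱}
    (W : WeilCohomology.{u, v} ops) (X : 𝒱.Obj) {G : Type} [Group G] [Finite G]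
    (a : G →* Aut X) :
    (SumIn (CutCyc W {j | Even j} a) ⊥ ↔ SignStd W X) ∧
    ∀ D : Set ℕ, (SumIn (CutCyc W D a) ⊥ ↔ CutStd W X D) ∧
      (∀ (H : Subgroup G) (Y : 𝒱.Obj) (f : X ⟶ Y), IsQuot W a H f → CutStd W Y D →
        SumIn (CutCyc W D a) H) ∧
      AllCriteria (CutCyc W D a) :=
  ⟨(sum_bot a).trans (sign_iff W X), fun D => ⟨sum_bot a, fun _ _ _ hf hY => sum_quot hf hY,
    Run7.h200.GR.all (twoSided W D a)⟩⟩

end Pool.Agent.Results.MP_fd35e1_ag.GroupActions
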