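import Pool.Agent.Run7.h488.CF.Main

/-!
# The sign conjecture and common factors of the cohomology groups

Let `W` be a Weil cohomology theory with coefficient field `K` on a class of smooth proper varieties closed under
products (for instance crystalline cohomology over a perfect field `k`, with `K = W(k)[1/p]`), and let `X` be a variety
of dimension `n`. The cycles of codimension `n` on `X × X` induce operators on `H^i(X)` for all `i`; let `A` be the algebra
of their `K`-linear combinations. No polarisation, no standard conjecture and no hypothesis on `k` is used.

Two degrees `i` and `j` have *no common factor* (`NoCommonFactor`) if all `A`-linear maps `N → H^j(X) / L` are zero, where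
`N ⊆ H^i(X)` and `L ⊆ H^j(X)` are `A`-stable subspaces, that is, if the `A`-modules `H^i(X)` and `H^j(X)` have no isomorphic
simple subquotients.

**Theorem.** The sign conjecture `C⁺(X)`, with rational coefficients, is equivalent to each of the following statements
about the pairs of an even degree `i` and an odd degree `j` with `i + j < 2 n`:

* `H^i(X)` and `H^j(X)` have no common factor;
* for each `y ∈ H^i(X)` and `y' ∈ H^j(X)` some `φ ∈ A`, which may depend on `y` and `y'`, satisfies `φ(y) = y`, `φ(y') = 0`;
* some `φ ∈ A`, which may depend on `i` and `j`, has no common eigenvalue on `H^i(X)` and `H^j(X)` (over extension fields).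

Degrees `i`, `j` for which the Künneth projector (or that of the dual degree) is known to be a combination of cycles can be
left out. For threefolds (the first open case of the conjecture, since the projectors for the degrees `0`, `1` are
algebraic) only one pair remains: `C⁺(X)` holds if and only if `H²(X)` and `H³(X)` have no common factor, and if and only if
there is one `φ ∈ A` without common eigenvalues on `H²(X)` and `H³(X)`. So, if `C⁺(X)` is false for a threefold, then all
rational correspondences have a common eigenvalue on `H²(X)` and `H³(X)`.

The proof. If `H^i` and `H^j` have no common factor, `y ∈ H^i` and `y' ∈ H^j`, let `L = {φ(y') : φ ∈ A, φ(y) = 0}`; the map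
`A y → H^j / L`, `φ(y) ↦ φ(y')`, is zero, so `φ(y') = y'` for some `φ ∈ A` with `φ(y) = 0`. By the separation lemma of the
starting directory `TH133/PW` one `φ ∈ A` is the identity on `H^i` and zero on `H^j`. Its transpose separates `2 n - i` and
`2 n - j`, and `i + j` is odd, so it is enough to consider `i + j < 2 n`. From all pairs one obtains the even projector
in `A`, and it is induced by a rational cycle (`TH133/PW`).
-/

set_option autoImplicit false

open CategoryTheory AlgebraicGeometry

universe u v

namespace Pool.Agent.Results.MP_fd35e1_ag.NoCommonFactors

open Pool.Agent.H914 VarClass Obj WeilCohomology Pool.Agent.TH133.PW Pool.Agent.H447 Run7.h488.CF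

/-- **The sign conjecture is the absence of common factors in the degrees `i + j < 2 n`.** `Critical n D i j`: `i` is even,
`j` is odd, `i + j < 2 n`, and `D` contains none of the degrees `i`, `j`, `2 n - i`, `2 n - j`. (1) For every set `D` of
degrees for which the Künneth projectors are combinations of cycles (for instance the empty set) five statements are
equivalent. (2) For threefolds for which the projectors onto `H^0(X)` and `H^1(X)` are combinations of cycles, `C⁺(X)` is
a statement about `H^2(X)` and `H^3(X)`. -/
theorem result {k : Type u} [Field k] {𝒱 : VarClass k} {ops : CycleOps 𝒱}
    (W : WeilCohomology.{u, v} ops) (X : 𝒱.Obj) :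
    (∀ D : Set ℕ, (∀ d ∈ D, KunnethSpan W X d) → SignForms W X D) ∧
    (X.dim = 3 → KunnethSpan W X 0 → KunnethSpan W X 1 → ThreefoldForms W X) :=
  ⟨fun D hD => sign_common W X D hD, fun hX h0 h1 => sign_threefold W X hX h0 h1⟩

end Pool.Agent.Results.MP_fd35e1_ag.NoCommonFactors
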