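import Pool.Agent.Run7.h604.PL.Sign

/-!
# The sign conjecture for crystalline cohomology and the pairs of an even and an odd degree

Let `k` be a perfect field of characteristic `p`, `W` the crystalline cohomology with coefficients in
`K = W(k)[1/p]` of the smooth proper varieties over `k` (the theorem holds for every Weil cohomology
theory on a class of smooth proper varieties closed under products). An even degree `i` and an odd degree `j` of a
variety `Y` are *separated* if for all `y ∈ H^i(Y)` and `y' ∈ H^j(Y)` some `K`-combination `φ` of
algebraic correspondences, which may depend on `y` and `y'`, satisfies `φ(y) = y` and `φ(y') = 0`
(`SepK`). The sign conjecture for `Y`, with rational coefficients, holds if and only if all these pairs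
of degrees are separated. Let `U(Y) = unsepParity W Y` be the sum of the `b_i(Y) b_j(Y)` over the
pairs, `i` even and `j` odd, which are *not* separated: `U(Y) / b(Y)^2` is the probability that the
first of two random members of a homogeneous basis of `H(Y)` has an even degree, and the second an odd
degree which is not separated from it; `b(Y)` is the sum of the Betti numbers.

**Theorem.** (1) Let `X` have cycles of codimension `s` and `dim X - s` with a nonzero intersection
number for all `s ≤ dim X` (for projective `X` the powers of an ample divisor). If the sign conjecture is
false for `X` then for all `n ≥ 2`

  `U(X^n) / b(X^n)^2 ≥ 9 / (16 b(X)^4 (4 dim X √n + 1))`.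

So the sign conjecture is true for `X` if `liminf √n U(X^n) / b(X^n)^2 = 0`.

(2) If all varieties of the class have such cycles then the sign conjecture for all varieties is
equivalent to `U(Y) ≤ f(b(Y)) b(Y)^2` for all `Y`, where `f` is any function with
`f(y) √(log y) → 0`: it is enough to separate parity for almost all pairs of degrees, up to a share of
smaller order than `(log b(Y))^(-1/2)`.

Proof. If `i` and `j` are not separated on `X` then `i + 2 s` and `j + 2 s` are not separated on
`X^(n+1)` for `0 ≤ s ≤ n dim X`: contract with a pair of dual cycles on the other factors. The Betti
numbers of `X^n` count the words of length `n` in a homogeneous basis according to the degree, and two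
random words have the same degree with probability at least `c n^(-1/2)` (Chebyshev and
Cauchy-Schwarz, `Run7.h604.PL.equal_pairs`).

This is the theorem `MP_56c18a_ag.ParityPairs` of this run (helper604), for the problem about crystalline
cohomology. The starting result `HalfKimuraFinite` on this problem is a law for the dimension of the
largest direct summand of the motive of `X^n` which is the sum of an even and an odd motive, so for the
image of idempotents; here the unit is a pair of degrees, only two classes at a time have to be
separated, and it suffices to separate all pairs except for a share of smaller order than `n^(-1/2)`.
-/

set_option autoImplicit false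

open CategoryTheory AlgebraicGeometry

universe u v

namespace Pool.Agent.Results.MP_fd35e1_ag.ParityPairs

open Pool.Agent.H914 VarClass Obj WeilCohomology Pool.Agent.H447 Pool.Agent.N103.OC
  Pool.Agent.N536.SG Run7.h604.PL

/-- **It is enough to separate parity for almost all pairs of degrees.** -/
theorem result {k : Type u} [Field k] {𝒱 : VarClass k} {ops : CycleOps 𝒱}
    (W : WeilCohomology.{u, v} ops) : LawFor W (unsepParity W) (SignStd W) :=
  law_sign W

end Pool.Agent.Results.MP_fd35e1_ag.ParityPairs
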