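import Pool.Agent.Run7.h301.WC.Main

/-!
# The even and odd dimensions of indecomposable motives

`W` is a Weil cohomology theory with coefficient field `K` (crystalline cohomology, say). `M'` and `N'`
are indecomposable direct summands of the motives of `Y` and `X` (homological equivalence, coefficients
in `K`), with even and odd cohomology of dimensions `(a₀, a₁)` and `(b₀, b₁)`.

**The ratio law.** If `M' ⊗ N'` has an even direct summand, not zero, then `a₀ ≠ a₁` and
`a₀ b₁ = b₀ a₁`. If it has an odd one, then `a₀ ≠ a₁` and `a₀ b₀ = a₁ b₁`.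

With `b` and `c` as in the definitions it gives a bound for `c(Y × X)`, and `C⁺(X)` holds if and only
if `c(X^n) ≥ b(X^n) / 2` for all large `n`.

The proof. Let `y` be the projector to a summand of `M' ⊗ N'` of parity `s`. Its partial trace over one
factor is an endomorphism `T` of an indecomposable motive. Its characteristic polynomials on the even
and the odd part are powers of the same irreducible polynomial, so its traces there are proportional
to `a₀` and `a₁`. As the parities of the two factors agree up to `s` on the image of `y`, this gives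
the traces of `y` on the four blocks in terms of `(a₀, a₁)`, and in terms of `(b₀, b₁)`.
-/

set_option autoImplicit false

open CategoryTheory AlgebraicGeometry

universe u v

namespace Pool.Agent.Results.MP_fd35e1_ag.RatioLaw

open Pool.Agent.H914 VarClass Obj WeilCohomology Pool.Agent.N103.OC Pool.Agent.TH133.PW
  Pool.Agent.H447 Pool.Agent.N536.HK Pool.Agent.Run7.h301

/-- **The ratio law and its consequences.** -/
theorem result {k : Type u} [Field k] {𝒱 : VarClass k} {ops : CycleOps 𝒱}
    (W : WeilCohomology.{u, v} ops) :
    WC.RatioLaw W ∧ WC.NotBoth W ∧ WC.NoOddInSquare W ∧ WC.NoneIfBalanced W ∧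
    (∀ Y X : 𝒱.Obj, WC.SharpBound W (cohDim W Y) Y X ∧ WC.SharpBound W (cohDim W X) Y X) ∧
    (∀ X : 𝒱.Obj, ¬ SignStd W X → WC.BelowTheta W X) ∧
    (∀ b : ℕ, 2 ≤ b → WC.theta b < 1 / 2) ∧ WC.OneHalf W :=
  ⟨WC.ratioLaw W, WC.notBoth W, WC.noOddInSquare W, WC.noneIfBalanced W,
    fun Y X => ⟨WC.sharpBound_left W Y X, WC.sharpBound_right W Y X⟩,
    fun _ hC => WC.belowTheta hC, fun _ hb => WC.theta_lt hb, WC.oneHalf W⟩

end Pool.Agent.Results.MP_fd35e1_ag.RatioLaw
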